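import Pool.Agent.Lib.TV19.TS
import Pool.Agent.Lib.TVA.First
import Pool.Agent.Lib.TVH.Hier2

set_option autoImplicit false
set_option linter.unusedVariables false

namespace Pool.Agent.Lib.TV61

open Pool.Agent.Lib.MP_3ecc11_lc Pool.Agent.Lib.TV19

variable {S : Sys}

theorem anc_refl {v : ℤ} (h : S.Key v) : Anc S.a S.b v v := by
  have := S.T.pl v h.1 h.2
  exact ⟨by omega, by omega⟩

theorem anc_key {t v : ℤ} (h : S.Key t) (h1 : Anc S.a S.b t v) : S.Key v := by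
  have := S.T.pl t h.1 h.2
  obtain ⟨a1, a2⟩ := h1
  exact ⟨by omega, by omega⟩

theorem anc_sub {t v : ℤ} (h : S.Key t) (h1 : Anc S.a S.b t v) :
    S.a t ≤ S.a v ∧ S.b v ≤ S.b t := by
  have := S.T.pl t h.1 h.2
  obtain ⟨a1, a2⟩ := h1
  rcases lt_trichotomy v t with e | e | e
  · have := S.T.l1 t v h.1 h.2 a1 e
    omega
  · subst e; omega
  · have := S.T.l2 t v h.1 h.2 e a2
    omega

theorem anc_trans {t v w : ℤ} (h : S.Key t) (h1 : Anc S.a S.b t v) (h2 : Anc S.a S.b v w) :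
    Anc S.a S.b t w := by
  have := anc_sub h h1
  obtain ⟨a1, a2⟩ := h2
  exact ⟨by omega, by omega⟩

theorem anc_anti {t v : ℤ} (h : S.Key t) (h1 : Anc S.a S.b t v) (h2 : Anc S.a S.b v t) :
    t = v := by
  obtain ⟨a1, a2⟩ := h1
  obtain ⟨a3, a4⟩ := h2
  rcases lt_trichotomy v t with e | e | e
  · have := S.T.l1 t v h.1 h.2 a1 e
    omega
  · omega
  · have := S.T.l2 t v h.1 h.2 e a2
    omega

theorem anc_cmp {t v w : ℤ} (h : S.Key t) (h' : S.Key v) (h1 : Anc S.a S.b t w)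
    (h2 : Anc S.a S.b v w) : Anc S.a S.b t v ∨ Anc S.a S.b v t := by
  obtain ⟨a1, a2⟩ := h1
  obtain ⟨a3, a4⟩ := h2
  have p1 := S.T.pl t h.1 h.2
  have p2 := S.T.pl v h'.1 h'.2
  unfold Anc
  by_contra c
  rcases lt_trichotomy v t with e | e | e
  · have c1 : v ≤ S.a t := by omega
    have c2 : S.b v ≤ t := by omega
    have c3 : S.a t < S.b v := by omega
    rcases eq_or_lt_of_le c1 with f | f
    · have := S.T.l4 t h.1 h.2 (by rw [← f]; exact h'.1)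
      rw [← f] at this
      omega
    · have k : S.L < S.a t := by have := h'.1; omega
      have := S.T.l4 t h.1 h.2 k
      have := S.T.l2 v (S.a t) h'.1 h'.2 f c3
      omega
  · omega
  · have c1 : t ≤ S.a v := by omega
    have c2 : S.b t ≤ v := by omega
    have c3 : S.a v < S.b t := by omega
    rcases eq_or_lt_of_le c1 with f | f
    · have := S.T.l4 v h'.1 h'.2 (by rw [← f]; exact h.1)
      rw [← f] at this
      omega
    · have k : S.L < S.a v := by have := h.1; omega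
      have := S.T.l4 v h'.1 h'.2 k
      have := S.T.l2 t (S.a v) h.1 h.2 f c3
      omega

/-- lower end of the loser gap -/
def g1 (S : Sys) (x : Lnk) : ℤ := if S.w x < x.m then x.m else x.lo
/-- upper end of the loser gap -/
def g2 (S : Sys) (x : Lnk) : ℤ := if S.w x < x.m then x.hi else x.m

/-- the facts on links used here -/
structure LF (S : Sys) (A : ℤ → Finset ℤ) : Prop where
  ord : ∀ x, S.IsLink x → x.lo < x.m ∧ x.m < x.hi
  aff : ∀ x, S.IsLink x → S.Aff x.t x.lo ∧ S.Aff x.t x.hi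
  frz : ∀ x s v, S.IsLink x → Anc S.a S.b x.t s → s ≠ x.t → Anc S.a S.b s (S.w x) → s ≠ S.w x →
    x.lo < v → v < x.hi → ¬ S.Aff s v
  dis : ∀ x y, S.IsLink x → S.IsLink y → x.t = y.t → x = y ∨ x.hi ≤ y.lo ∨ y.hi ≤ x.lo
  ts : ∀ s u c1 c2 tu tv nu nv, S.Key s → S.Key u → Child S.a S.b s u → c1 < c2 → S.a u < c1 →
    c2 < S.b u → S.Aff s c1 → S.Aff s c2 → S.Key tu → S.Key tv → Anc S.a S.b tu s → tu ≠ s →
    Anc S.a S.b tv s → tv ≠ s → S.Aff tu nu → S.Aff tv nv → nu ≤ S.item c1 c2 →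
    S.item c1 c2 < nv → S.a u < nu → nv < S.b u →
    ∃ t, ((Anc S.a S.b tu t ∧ Anc S.a S.b t tv) ∨ (Anc S.a S.b tv t ∧ Anc S.a S.b t tu)) ∧
      S.item c1 c2 ∈ A t

/-- the basic picture of a link -/
structure Pic (S : Sys) (x : Lnk) (u : ℤ) : Prop where
  kt : S.Key x.t
  ku : S.Key u
  ch : Child S.a S.b x.t u
  ul : S.a u < x.lo
  uh : x.hi < S.b u
  o1 : x.lo ≤ g1 S x
  o2 : g1 S x < g2 S x
  o3 : g2 S x ≤ x.hi
  a1 : S.Aff x.t (g1 S x)
  a2 : S.Aff x.t (g2 S x)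
  ge : S.g x = S.item (g1 S x) (g2 S x)
  e1 : g1 S x ≤ S.e x
  e2 : S.e x ≤ g2 S x
  e3 : S.a (S.e x) < g1 S x
  e4 : g2 S x < S.b (S.e x)
  i1 : g1 S x ≤ S.g x
  i2 : S.g x < g2 S x
  i3 : S.e x = S.g x ∨ S.e x = S.g x + 1
  w1 : x.lo ≤ S.w x
  w2 : S.w x ≤ x.hi
  w3 : S.a (S.w x) < x.lo
  w4 : x.hi < S.b (S.w x)
  kw : S.Key (S.w x)
  ke : S.Key (S.e x)
  tw : Anc S.a S.b x.t (S.w x)
  we : Anc S.a S.b (S.w x) (S.e x)
  ne : S.w x ≠ x.m → S.w x ≠ S.e x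

theorem pic {A : ℤ → Finset ℤ} (H : LF S A) {x : Lnk} (h : S.IsLink x) : ∃ u, Pic S x u := by
  obtain ⟨o1, o2⟩ := H.ord x h
  obtain ⟨f1, f2⟩ := H.aff x h
  obtain ⟨kt, am, u, ku, ch, -, -, -, ul, uh⟩ := h
  have pu := S.T.pl u ku.1 ku.2
  have pt := S.T.pl x.t kt.1 kt.2
  have hw := S.tp x.lo x.hi (by omega) (by omega) (by omega)
  have h12 : x.lo ≤ g1 S x ∧ g1 S x < g2 S x ∧ g2 S x ≤ x.hi := by
    unfold g1 g2; split_ifs <;> omega
  have he : S.e x = S.top (g1 S x) (g2 S x) := by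
    unfold Sys.e g1 g2; split_ifs <;> rfl
  have hg : S.g x = S.item (g1 S x) (g2 S x) := by
    unfold Sys.g g1 g2; split_ifs <;> rfl
  have ht := S.tp (g1 S x) (g2 S x) (by omega) (by omega) (by omega)
  have hi := S.i1 (g1 S x) (g2 S x) (by omega) (by omega) (by omega)
  rw [← he] at ht hi
  rw [← hg] at hi
  have hw' : S.top x.lo x.hi = S.w x := rfl
  rw [hw'] at hw
  have hc : S.a x.t ≤ S.a u ∧ S.b u ≤ S.b x.t := by
    rcases ch with c | c <;> omega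
  refine ⟨u, kt, ku, ch, ul, uh, h12.1, h12.2.1, h12.2.2, ?_, ?_, hg, ht.1, ht.2.1, ht.2.2.1,
    ht.2.2.2, hi.1, hi.2.1, hi.2.2, hw.1, hw.2.1, hw.2.2.1, hw.2.2.2, ⟨by omega, by omega⟩,
    ⟨by omega, by omega⟩, ⟨by omega, by omega⟩, ⟨by omega, by omega⟩, fun n => ?_⟩
  · unfold g1; split_ifs
    · exact am
    · exact f1
  · unfold g2; split_ifs
    · exact f2
    · exact am
  · have a := ht.1
    have b := ht.2.1
    unfold g1 at a
    unfold g2 at b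
    split_ifs at a b <;> omega

section
variable {A : ℤ → Finset ℤ} {d : ℤ → ℤ → ℕ}

theorem lv_pos (H : LF S A) (U : S.Ultra d) {x : Lnk} (h : S.FLink d x) :
    0 < d (S.w x) (S.e x) := by
  obtain ⟨u, p⟩ := pic H h.1
  exact Nat.pos_of_ne_zero fun e => p.ne h.2.1 (U.d0 _ _ p.kw p.ke e)

theorem lv_lt (H : LF S A) (U : S.Ultra d) {x : Lnk} (h : S.FLink d x) :
    d (S.w x) (S.e x) < d x.t (S.e x) := by
  obtain ⟨u, p⟩ := pic H h.1
  exact lt_of_lt_of_le h.2.2 (U.d3 _ _ _ p.kt p.tw p.we).1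

theorem e_eq {x y : Lnk} {u v : ℤ} (p : Pic S x u) (q : Pic S y v) (hg : S.g x = S.g y) :
    S.e x = S.e y := by
  have := p.e3; have := p.e4; have := p.i1; have := p.i2; have := p.i3
  have := q.e3; have := q.e4; have := q.i1; have := q.i2; have := q.i3
  exact anc_anti p.ke ⟨by omega, by omega⟩ ⟨by omega, by omega⟩

theorem lv_drop (H : LF S A) (U : S.Ultra d) {x y : Lnk} (hx : S.FLink d x) (hy : S.FLink d y)
    (hg : S.g x = S.g y) (h1 : Anc S.a S.b x.t y.t) (h2 : y.t ≠ x.t) :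
    d (S.w y) (S.e y) < d (S.w x) (S.e x) := by
  obtain ⟨u, p⟩ := pic H hx.1
  obtain ⟨v, q⟩ := pic H hy.1
  have ee := e_eq p q hg
  have ye : Anc S.a S.b y.t (S.e x) := ee ▸ anc_trans q.kt q.tw q.we
  have key : Anc S.a S.b (S.w x) y.t := by
    rcases anc_cmp p.kw q.kt p.we ye with c | c
    · exact c
    by_cases e : y.t = S.w x
    · rw [e]; exact anc_refl p.kw
    exfalso
    have n1 := fun a b => H.frz x y.t (g1 S y) hx.1 h1 h2 c e a b q.a1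
    have n2 := fun a b => H.frz x y.t (g2 S y) hx.1 h1 h2 c e a b q.a2
    have := p.o1; have := p.o3; have := p.i1; have := p.i2; have := q.i1; have := q.i2
    have b1 : g1 S y ≤ x.lo := by by_contra z; exact n1 (by omega) (by omega)
    have b2 : x.hi ≤ g2 S y := by by_contra z; exact n2 (by omega) (by omega)
    have := q.e3; have := q.e4; have := p.w1; have := p.w2
    exact p.ne hx.2.1 (anc_anti p.kw p.we ⟨by rw [ee]; omega, by rw [ee]; omega⟩)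
  have a1 := lv_lt H U hy
  have a2 := (U.d3 _ _ _ p.kw key ye).2
  rw [← ee] at a1 ⊢
  omega

theorem inj_g (H : LF S A) (U : S.Ultra d) {x y : Lnk} (hx : S.FLink d x) (hy : S.FLink d y)
    (hg : S.g x = S.g y) (hl : d (S.w x) (S.e x) = d (S.w y) (S.e y)) : x = y := by
  obtain ⟨u, p⟩ := pic H hx.1
  obtain ⟨v, q⟩ := pic H hy.1
  have ee := e_eq p q hg
  by_cases e : x.t = y.t
  · have := p.o1; have := p.o3; have := p.i1; have := p.i2
    have := q.o1; have := q.o3; have := q.i1; have := q.i2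
    rcases H.dis x y hx.1 hy.1 e with c | c | c
    · exact c
    · omega
    · omega
  · rcases anc_cmp p.kt q.kt (anc_trans p.kt p.tw p.we) (ee ▸ anc_trans q.kt q.tw q.we) with c | c
    · have := lv_drop H U hx hy hg c (Ne.symm e)
      omega
    · have := lv_drop H U hy hx hg.symm c e
      omega

theorem outer (H : LF S A) (U : S.Ultra d) {x y : Lnk} {c : ℤ} (hx : S.FLink d x)
    (hy : S.FLink d y) (p : Pic S x c) (hl : d (S.w y) (S.e y) = d (S.w x) (S.e x))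
    (ha : d x.t (S.e x) < d y.t (S.e y)) (hd : d (S.e y) (S.e x) < d x.t (S.e x)) :
    Anc S.a S.b y.t x.t ∧ y.t ≠ x.t ∧ d y.t (S.e x) = d y.t (S.e y) ∧ S.a c < y.lo ∧
      y.hi < S.b c := by
  obtain ⟨v, q⟩ := pic H hy.1
  have l1 := lv_lt H U hx
  obtain ⟨M, kM, dM, hM⟩ := U.d6 (S.e x) (d x.t (S.e x) - 1) p.ke
  have s1 := U.sym _ _ p.ke q.ke
  have s2 := U.sym _ _ q.ke q.kw
  have s3 := U.sym _ _ p.ke kM
  have xe := anc_trans p.kt p.tw p.we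
  have ye := anc_trans q.kt q.tw q.we
  have Mx : Anc S.a S.b M (S.e x) := by
    refine hM _ p.ke ?_
    have := (U.d3 _ _ _ p.ke (anc_refl p.ke) (anc_refl p.ke)).1
    by_cases z : d (S.e x) (S.e x) = 0
    · omega
    · have := U.d2 _ _ _ p.ke p.ke p.ke rfl (by omega)
      omega
  have My : Anc S.a S.b M (S.e y) := hM _ q.ke (by omega)
  have Mw : Anc S.a S.b M (S.w y) := by
    have := U.d1 _ _ _ p.ke q.ke q.kw
    exact hM _ q.kw (by omega)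
  have xM : Anc S.a S.b x.t M ∧ M ≠ x.t := by
    refine ⟨?_, fun e => by rw [e] at s3 dM; omega⟩
    rcases anc_cmp p.kt kM xe Mx with z | z
    · exact z
    · have := (U.d3 _ _ _ kM z xe).2
      omega
  have yM : Anc S.a S.b y.t M := by
    rcases anc_cmp q.kt kM ye My with z | z
    · exact z
    · have := (U.d3 _ _ _ kM z ye).2
      have := U.d1 _ _ _ kM p.ke q.ke
      omega
  have yx : Anc S.a S.b y.t (S.e x) := anc_trans q.kt yM Mx
  have dd : d y.t (S.e x) = d y.t (S.e y) := by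
    have := U.d1 _ _ _ q.kt p.ke q.ke
    have := U.d1 _ _ _ q.kt q.ke p.ke
    omega
  have cM : S.a c ≤ S.a M ∧ S.b M ≤ S.b c := by
    obtain ⟨⟨z1, z2⟩, z3⟩ := xM
    obtain ⟨z4, z5⟩ := Mx
    have := p.ul; have := p.uh; have := p.o1; have := p.o3; have := p.e1; have := p.e2
    rcases lt_or_gt_of_ne z3 with z | z
    · have := S.T.l1 x.t M p.kt.1 p.kt.2 z1 z
      rcases p.ch with f | f <;> omega
    · have := S.T.l2 x.t M p.kt.1 p.kt.2 z z2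
      rcases p.ch with f | f <;> omega
  have := anc_sub kM Mw
  have := q.w3; have := q.w4
  refine ⟨?_, fun e => by rw [e] at dd ha; omega, dd, by omega, by omega⟩
  rcases anc_cmp q.kt p.kt yx xe with z | z
  · exact z
  · have := (U.d3 _ _ _ p.kt z yx).2
    omega

theorem ts_inst (H : LF S A) (U : S.Ultra d) {x u v : Lnk} (hx : S.FLink d x)
    (hu : S.FLink d u) (hv : S.FLink d v) (l1 : d (S.w u) (S.e u) = d (S.w x) (S.e x))
    (l2 : d (S.w v) (S.e v) = d (S.w x) (S.e x)) (a1 : d u.t (S.e u) = d v.t (S.e v))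
    (a2 : d x.t (S.e x) < d u.t (S.e u)) (e1 : S.e u < S.e x) (e2 : S.e x < S.e v)
    (d1 : d (S.e u) (S.e x) < d x.t (S.e x)) (d2 : d (S.e v) (S.e x) < d x.t (S.e x)) :
    ∃ t, S.Key t ∧ d t (S.e x) = d u.t (S.e u) ∧ S.g x ∈ A t := by
  obtain ⟨c, p⟩ := pic H hx.1
  obtain ⟨cu, pu⟩ := pic H hu.1
  obtain ⟨cv, pv⟩ := pic H hv.1
  obtain ⟨u1, u2, u3, u4, u5⟩ := outer H U hx hu p l1 a2 d1
  obtain ⟨v1, v2, v3, v4, v5⟩ := outer H U hx hv p l2 (a1 ▸ a2) d2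
  have := p.ul; have := p.uh; have := p.o1; have := p.o3; have := p.i3
  have := pu.o1; have := pu.e1; have := pv.o3; have := pv.e2
  have xe := anc_trans p.kt p.tw p.we
  obtain ⟨t, ht, hA⟩ := H.ts x.t c (g1 S x) (g2 S x) u.t v.t (g1 S u) (g2 S v) p.kt p.ku p.ch
    p.o2 (by omega) (by omega) p.a1 p.a2 pu.kt pv.kt u1 u2 v1 v2 pu.a1 pv.a2
    (by rw [← p.ge]; omega) (by rw [← p.ge]; omega) (by omega) (by omega)
  rw [← p.ge] at hA
  rcases ht with ⟨z1, z2⟩ | ⟨z1, z2⟩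
  · have kt := anc_key pu.kt z1
    have ve := anc_trans pv.kt v1 xe
    have := (U.d3 _ _ _ pu.kt z1 (anc_trans kt z2 ve)).2
    have := (U.d3 _ _ _ kt z2 ve).2
    exact ⟨t, kt, by omega, hA⟩
  · have kt := anc_key pv.kt z1
    have ue := anc_trans pu.kt u1 xe
    have := (U.d3 _ _ _ pv.kt z1 (anc_trans kt z2 ue)).2
    have := (U.d3 _ _ _ kt z2 ue).2
    exact ⟨t, kt, by omega, hA⟩

end

theorem lf {A : ℤ → Finset ℤ} (hA : S.Items A) : LF S A where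
  ord := fun x h => by
    obtain ⟨-, a1, a2, -⟩ := h.basic
    exact ⟨a1, a2⟩
  aff := fun x h => by
    obtain ⟨-, -, -, -, -, -, a1, -, a2⟩ := h.basic
    exact ⟨a1, a2⟩
  frz := fun x s v h h1 h2 h3 h4 h5 h6 => h.noaff h1 (Ne.symm h2) h3 h4 h5 h6
  dis := fun x y h k e => h.disj k e
  ts := fun s u c1 c2 tu tv nu nv ks ku ch c12 b1 b2 a1 a2 ktu ktv h1 n1 h2 n2 f1 f2 i1 i2 j1 j2 => by
    have ps := S.T.pl s ks.1 ks.2
    have pu := S.T.pl u ku.1 ku.2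
    obtain ⟨t, z1, z2⟩ := Sys.ts hA ktu ktv h1 n1 h2 n2 a1 a2 c12 f1 f2 i1 i2
      (by rcases ch with c | c <;> omega) (by rcases ch with c | c <;> omega)
      (by rcases ch with c | c <;> omega)
    exact ⟨t, z2, z1⟩

open Pool.Agent.Lib.TVH in
theorem hier_ultra {N : ℤ} {d : ℤ → ℤ → ℕ} {z : ℤ → ℤ} (hL : S.L = 0) (hR : S.R = N)
    (H : Hier N S.a S.b d z) : S.Ultra d := by
  have k : ∀ v, S.Key v ↔ 0 < v ∧ v < N := fun v => by unfold Sys.Key; rw [hL, hR]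
  refine ⟨fun u v hu hv e => ?_, fun u v hu hv => ?_, fun u v w hu hv hw => ?_,
    fun u v w hu hv hw => ?_, fun u v w hu h1 h2 => ?_, fun u n hu => ?_⟩
  · rw [k] at hu hv
    exact (H.d0 u v hu.1 hu.2 hv.1 hv.2).1 e
  · rw [k] at hu hv
    exact H.sym u v hu.1 hu.2 hv.1 hv.2
  · rw [k] at hu hv hw
    exact H.d1 u v w hu.1 hu.2 hv.1 hv.2 hw.1 hw.2
  · rw [k] at hu hv hw
    exact H.d2 u v w hu.1 hu.2 hv.1 hv.2 hw.1 hw.2
  · rw [k] at hu
    exact H.d3 u v w hu.1 hu.2 h1.1 h1.2 h2.1 h2.2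
  · rw [k] at hu
    obtain ⟨m, m1, m2⟩ := H.d6 u n hu.1 hu.2
    rw [TVH.mem_ball] at m1
    exact ⟨m, (k m).2 m1.1, m1.2, fun v hv hd => m2 v (TVH.mem_ball.2 ⟨(k v).1 hv, hd⟩)⟩

open Pool.Agent.Lib.TVH in
theorem hier_um {N : ℤ} {a b : ℤ → ℤ} {d : ℤ → ℤ → ℕ} {z : ℤ → ℤ} (H : Hier N a b d z) :
    TVA.UM N d := by
  refine ⟨fun u u1 u2 => H.self u1 u2, H.sym, H.d1, H.d2,
    fun u v u1 u2 v1 v2 _ => H.d5' u1 u2 v1 v2, fun u k u1 u2 => ?_⟩
  obtain ⟨l1, l2, l3, l4, -, -, -, h⟩ := H.d7 u k u1 u2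
  refine ⟨l1, l2, l3, l4, fun v v1 v2 => ?_⟩
  rw [← h v, TVH.mem_ball]
  exact ⟨fun e => ⟨⟨v1, v2⟩, e⟩, fun e => e.2⟩

theorem fam {N : ℤ} {A : ℤ → Finset ℤ} {d : ℤ → ℤ → ℕ} (hL : S.L = 0) (hR : S.R = N)
    (U : S.Ultra d) (hA : S.Items A) (Y : Finset Lnk) (hY : ∀ x ∈ Y, S.FLink d x)
    (hT : ∀ x ∈ Y, ∀ y ∈ Y, (S.w x < x.m ↔ S.w y < y.m))
    (hS : ∀ x ∈ Y, ∀ y ∈ Y, S.Same d x y → x = y) :
    TVA.Fam N d Y S.e S.g (fun x => d (S.w x) (S.e x)) (fun x => d x.t (S.e x)) A := by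
  have H := lf hA
  have k : ∀ v, S.Key v ↔ 0 < v ∧ v < N := fun v => by unfold Sys.Key; rw [hL, hR]
  refine ⟨fun x hx => ?_, fun x hx => ⟨lv_pos H U (hY x hx), lv_lt H U (hY x hx)⟩,
    fun x hx => ?_, fun x hx => ?_, fun x hx y hy h1 h2 => inj_g H U (hY x hx) (hY y hy) h1 h2,
    fun x hx y hy h1 h2 h3 => hS x hx y hy ⟨hT x hx y hy, h1, h3, h2⟩,
    fun x hx u hu v hv h1 h2 h3 h4 h5 h6 h7 h8 => ?_⟩
  · obtain ⟨u, p⟩ := pic H (hY x hx).1
    exact (k _).1 p.ke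
  · obtain ⟨u, p⟩ := pic H (hY x hx).1
    exact ⟨S.w x, ((k _).1 p.kw).1, ((k _).1 p.kw).2, U.sym _ _ p.ke p.kw⟩
  · obtain ⟨u, p⟩ := pic H (hY x hx).1
    exact ⟨x.t, ((k _).1 p.kt).1, ((k _).1 p.kt).2, U.sym _ _ p.ke p.kt⟩
  · obtain ⟨t, t1, t2, t3⟩ := ts_inst H U (hY x hx) (hY u hu) (hY v hv) h1 h2 h3 h4 h5 h6 h7 h8
    exact ⟨t, ((k _).1 t1).1, ((k _).1 t1).2, t2, t3⟩

/-- F-links in pairwise different incidence classes -/
theorem first_um {N : ℤ} {A : ℤ → Finset ℤ} {d : ℤ → ℤ → ℕ} (R : ℕ) (hL : S.L = 0)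
    (hR : S.R = N) (U : S.Ultra d) (M : TVA.UM N d) (hA : S.Items A) (Y : Finset Lnk)
    (hY : ∀ x ∈ Y, S.FLink d x) (hS : ∀ x ∈ Y, ∀ y ∈ Y, S.Same d x y → x = y) :
    R * Y.card ≤ (2560 * R ^ 2 + 204800 * R) * N.toNat + 80 * ∑ t ∈ Finset.Ioo 0 N, (A t).card := by
  classical
  have h1 := TVA.first_bound R M (fam hL hR U hA (Y.filter fun x => S.w x < x.m)
    (fun x hx => hY x (Finset.mem_filter.1 hx).1)
    (fun x hx y hy => iff_of_true (Finset.mem_filter.1 hx).2 (Finset.mem_filter.1 hy).2)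
    (fun x hx y hy => hS x (Finset.mem_filter.1 hx).1 y (Finset.mem_filter.1 hy).1))
  have h2 := TVA.first_bound R M (fam hL hR U hA (Y.filter fun x => ¬ S.w x < x.m)
    (fun x hx => hY x (Finset.mem_filter.1 hx).1)
    (fun x hx y hy => iff_of_false (Finset.mem_filter.1 hx).2 (Finset.mem_filter.1 hy).2)
    (fun x hx y hy => hS x (Finset.mem_filter.1 hx).1 y (Finset.mem_filter.1 hy).1))
  have h3 := Finset.card_filter_add_card_filter_not (s := Y) (fun x => S.w x < x.m)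
  rw [← h3]
  nlinarith

/-- the same bound from the hierarchy -/
theorem first {N : ℤ} {A : ℤ → Finset ℤ} {d : ℤ → ℤ → ℕ} {z : ℤ → ℤ} (R : ℕ) (hL : S.L = 0)
    (hR : S.R = N) (H : TVH.Hier N S.a S.b d z) (hA : S.Items A) (Y : Finset Lnk)
    (hY : ∀ x ∈ Y, S.FLink d x) (hS : ∀ x ∈ Y, ∀ y ∈ Y, S.Same d x y → x = y) :
    R * Y.card ≤ (2560 * R ^ 2 + 204800 * R) * N.toNat + 80 * ∑ t ∈ Finset.Ioo 0 N, (A t).card :=
  first_um R hL hR (hier_ultra hL hR H) (hier_um H) hA Y hY hS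

end Pool.Agent.Lib.TV61
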